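import Pool.Agent.H37.CNK.Stmts
import Pool.Agent.H14.CNS.OM1

/-!
# Row PCG of the board `cnk`: if all elements of order `p` are central then commutators of an element
of order dividing `p ^ 2` have order dividing `p`
-/

set_option autoImplicit false

namespace Pool.CND

open OM1 in
theorem pcg_thm : S_PCG := by
  intro p G _ _ hp hp2 ⟨a, ha⟩ hom w g hw
  have hG : IsPGroup p G := IsPGroup.of_card ha
  have hcon : ∀ E : Subgroup G, E.Normal → EA p E → E ≤ Subgroup.center G :=
    fun E _ hE x hx => hom x (hE.1 x hx)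
  obtain ⟨n, hn⟩ := exists_top hp hG
  have mono : ∀ m : ℕ, (ser G p 1).1 ≤ (ser G p (m + 1)).1 := by
    intro m
    induction m with
    | zero => exact le_refl _
    | succ m ih => exact ih.trans (ser_mono (m + 1))
  have hwp : w ^ p ∈ (ser G p 1).1 := (mem_ser_one _).2 ⟨hom _ hw, hw⟩
  have key : ∀ m : ℕ, w ∈ (ser G p (m + 2)).1 → w ∈ (ser G p 2).1 := by
    intro m
    induction m with
    | zero => exact id
    | succ m ih =>
      intro h
      exact ih (step hp hp2 hcon (m + 1) w h (mono m hwp))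
  have h1 : w ∈ (ser G p (n + 2)).1 :=
    ser_mono (n + 1) (ser_mono n (by rw [hn]; trivial))
  have h2 := ((mem_ser_succ 1 w).1 (key n h1)).1 g
  have h3 := ((mem_ser_one _).1 h2).2
  have h4 : w * g * w⁻¹ * g⁻¹ = (g * w * g⁻¹ * w⁻¹)⁻¹ := by group
  rw [h4, inv_pow, h3, inv_one]

end Pool.CND
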